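import Pool.Agent.Helper86.TC8.Stmts

/-!
# TC8: `BITSP`, the bits at the free states
-/

set_option autoImplicit false

namespace Pool.Agent.Helper98.TC8

open Finset
open scoped Classical
open Pool.Agent.Helper86.TC8

variable {V : Type}

theorem stops_succ (G : CG V) (Z P : V → Bool) (k : ℕ) :
    ∀ h : WS V, Stops G Z P k h → Stops G Z P (k + 1) h := by
  induction k with
  | zero => intro h hs; exact hs.elim
  | succ k ih =>
    intro h hs
    unfold Stops at hs ⊢
    split
    · trivial
    · rename_i h' he
      rw [he] at hs
      exact ih h' hs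

theorem valW_eq (G : CG V) (Z P : V → Bool) (u : Bool → V → Bool) (k : ℕ) :
    ∀ h : WS V, Stops G Z P k h → valW G Z P u k h =
      (u (srcW G Z P k h).1.1 (srcW G Z P k h).1.2 ^^ (srcW G Z P k h).2) := by
  induction k with
  | zero => intro h hs; exact hs.elim
  | succ k ih =>
    intro h hs
    unfold Stops at hs
    unfold valW srcW
    cases he : stepW G Z P h with
    | inl h' => simp
    | inr h' =>
      rw [he] at hs
      simp only
      rw [ih h' hs, Bool.xor_not]

/-- value of a free state -/
def vl (st : St) (b : Bool) : Bool := if b then st.B else st.m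

theorem freeL_val (G : CG V) (nt : V → St) (z : V) (d : ℕ) :
    ∀ (a : L) (W : List L) (t : Tr d), rd G nt d a (act G W z) = t →
      ∀ e ∈ freeL d a W t, act G e.2.1 z ∈ br G d a (act G W z) ∧
        vl (nt (act G e.2.1 z)) e.1 = e.2.2 := by
  induction d with
  | zero =>
    intro a W t ht e he
    have ht' : nt (act G W z) = t := ht
    subst ht'
    unfold freeL at he
    have hmem : ∀ b : Bool, e = (b, W, vl (nt (act G W z)) b) →
        act G e.2.1 z ∈ br G 0 a (act G W z) ∧ vl (nt (act G e.2.1 z)) e.1 = e.2.2 := by
      intro b hb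
      subst hb
      exact ⟨by simp [br], rfl⟩
    cases a with
    | n =>
      unfold leafFree at he
      simp only at he
      split_ifs at he with hP
      · rw [List.mem_singleton] at he
        exact hmem false (by rw [he]; rfl)
      · rw [List.mem_cons, List.mem_singleton] at he
        rcases he with he | he
        · exact hmem false (by rw [he]; rfl)
        · exact hmem true (by rw [he]; rfl)
    | b =>
      unfold leafFree at he
      simp only at he
      rw [List.mem_cons, List.mem_singleton] at he
      rcases he with he | he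
      · exact hmem false (by rw [he]; rfl)
      · exact hmem true (by rw [he]; rfl)
    | f =>
      unfold leafFree at he
      simp only at he
      split_ifs at he with hP
      · rw [List.mem_singleton] at he
        exact hmem true (by rw [he]; rfl)
      · exact absurd he (List.not_mem_nil)
  | succ d ih =>
    intro a W t ht e he
    unfold freeL at he
    have h1 : rd G nt d (k1 a) (act G (k1 a :: W) z) = t.2.1 := by
      rw [← ht]
      rfl
    have h2 : rd G nt d (k2 a) (act G (k2 a :: W) z) = t.2.2 := by
      rw [← ht]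
      rfl
    rw [List.mem_append] at he
    unfold br
    rcases he with he | he
    · obtain ⟨h3, h4⟩ := ih (k1 a) (k1 a :: W) t.2.1 h1 e he
      exact ⟨mem_insert_of_mem (mem_union_left _ h3), h4⟩
    · obtain ⟨h3, h4⟩ := ih (k2 a) (k2 a :: W) t.2.2 h2 e he
      exact ⟨mem_insert_of_mem (mem_union_right _ h3), h4⟩

theorem root_rd (G : CG V) (nt : V → St) (d : ℕ) (a : L) (x : V) :
    root d (rd G nt d a x) = nt x := by
  cases d <;> rfl

theorem self_mem_br (G : CG V) (d : ℕ) (a : L) (x : V) : x ∈ br G d a x := by
  cases d with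
  | zero => simp [br]
  | succ d => simp [br]

theorem freeAll_val (G : CG V) (nt : V → St) (z : V) (d : ℕ) (a : L) (t : Tr d)
    (ht : rd G nt d a (act1 G a z) = t) :
    ∀ e ∈ freeAll d a t, act G e.2.1 z ∈ br G d a (act1 G a z) ∧
        vl (nt (act G e.2.1 z)) e.1 = e.2.2 := by
  intro e he
  unfold freeAll at he
  rw [List.mem_append] at he
  rcases he with he | he
  · have hr : root d t = nt (act1 G a z) := by
      rw [← ht, root_rd]
    rw [hr] at he
    have hmem : ∀ b : Bool, e = (b, [a], vl (nt (act1 G a z)) b) →
        act G e.2.1 z ∈ br G d a (act1 G a z) ∧ vl (nt (act G e.2.1 z)) e.1 = e.2.2 := by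
      intro b hb
      subst hb
      exact ⟨self_mem_br G d a _, rfl⟩
    cases a with
    | n =>
      unfold rootFree at he
      simp only at he
      split_ifs at he with hP
      · rw [List.mem_singleton] at he
        exact hmem true (by rw [he]; rfl)
      · exact absurd he (List.not_mem_nil)
    | b =>
      unfold rootFree at he
      exact absurd he (List.not_mem_nil)
    | f =>
      unfold rootFree at he
      simp only at he
      split_ifs at he with hP
      · rw [List.mem_singleton] at he
        exact hmem false (by rw [he]; rfl)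
      · rw [List.mem_cons, List.mem_singleton] at he
        rcases he with he | he
        · exact hmem false (by rw [he]; rfl)
        · exact hmem true (by rw [he]; rfl)
  · exact freeL_val G nt z d a [a] t ht e he

theorem vl_nat (C : Ctx V) (ω : Idx V → Bool) (x : V) (b : Bool) :
    vl (nat C ω x) b = valW C.G C.Z (PP C ω) (sb ω) (C.LF + 1) (b, x) := by
  cases b <;> rfl

theorem pr_mono {ι : Type} [Fintype ι] (A B : (ι → Bool) → Prop) (h : ∀ ω, A ω → B ω) :
    pr A ≤ pr B := by
  unfold pr
  have h1 : (univ.filter A).card ≤ (univ.filter B).card := by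
    refine card_le_card fun ω hω => ?_
    rw [mem_filter] at hω ⊢
    exact ⟨hω.1, h ω hω.2⟩
  have h2 : (0 : ℝ) ≤ (2 : ℝ) ^ Fintype.card ι := by positivity
  exact div_le_div_of_nonneg_right (by exact_mod_cast h1) h2

end Pool.Agent.Helper98.TC8

namespace Pool.Agent.Helper98.TC8

open Finset
open scoped Classical
open Pool.Agent.Helper86.TC8

theorem st_BITSP : ST_SRC → ST_PROD → ST_BITSP := by
  intro hSRC hPROD V _ C R D0 D1 hyp z a t A hz hA
  set F := freeAll R a t with hF
  let f : (V → Bool) → (Bool × List L × Bool) → WS V × Bool := fun p e =>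
    srcW C.G C.Z (ps C p) (C.LF + 1) (e.1, act C.G e.2.1 z)
  let src : (V → Bool) → Fin F.length → WS V := fun p k => (f p (F.get k)).1
  let v : (V → Bool) → Fin F.length → Bool := fun p k => ((F.get k).2.2 ^^ (f p (F.get k)).2)
  have hinj : ∀ p, A p → Function.Injective (src p) := by
    intro p hp
    obtain ⟨h1, h2⟩ := hA p hp
    have hnd : (F.map fun e => (f p e).1).Nodup :=
      hSRC V C R D0 D1 hyp z a t (sd C p) (ps C p) hz h1 h2
    intro i j hij
    have h3 : F.Nodup := hnd.of_map _
    have h4 : F.get i = F.get j :=
      List.inj_on_of_nodup_map hnd (F.get_mem i) (F.get_mem j) hij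
    exact h3.injective_get h4
  refine le_trans (pr_mono _ _ ?_) (hPROD V F.length A src v hinj)
  rintro ω ⟨hω, hrd⟩
  refine ⟨hω, fun k => ?_⟩
  obtain ⟨_, hst⟩ := hA _ hω
  obtain ⟨h1, h2⟩ := freeAll_val C.G (nat C ω) z R a t hrd (F.get k) (F.get_mem k)
  rw [vl_nat] at h2
  have h3 := stops_succ C.G C.Z (ps C (ph ω)) C.LF _ (hst _ h1 (F.get k).1)
  have h4 := valW_eq C.G C.Z (ps C (ph ω)) (sb ω) (C.LF + 1) _ h3
  have h5 : sb ω (src (ph ω) k).1 (src (ph ω) k).2 =
      ((F.get k).2.2 ^^ (f (ph ω) (F.get k)).2) := by
    have h6 : (F.get k).2.2 = (sb ω (src (ph ω) k).1 (src (ph ω) k).2 ^^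
        (f (ph ω) (F.get k)).2) := by
      rw [← h2]
      exact h4
    rw [h6, Bool.xor_assoc, Bool.xor_self, Bool.xor_false]
  exact h5

end Pool.Agent.Helper98.TC8
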